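import Pool.Agent.H343.QF.StS
import Pool.Agent.H343.AN.F4

set_option autoImplicit false
set_option linter.unusedSectionVars false

/-! Part S1 of project QF : the free group of rank 2 is good. -/

namespace Pool.Agent.H384.QF.S1

open Pool.Agent.TH68 Pool.Agent.Helper97.Hyp Pool.Agent.H343.AN Pool.Agent.H343.QF
open Pool.Agent.H343.AN.F4 (WF WF_ell hyp0 norm_mk)

/-- the reduced word of a power of the first generator -/
def aw (i : ℤ) : List (Fin 2 × Bool) := List.replicate i.natAbs (0, decide (0 ≤ i))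

lemma mk_replicate (x : Fin 2 × Bool) (n : ℕ) :
    FreeGroup.mk (List.replicate n x) = (FreeGroup.mk [x]) ^ n := by
  induction n with
  | zero => rfl
  | succ n ih =>
    rw [List.replicate_succ, pow_succ', ← ih, FreeGroup.mul_mk]
    rfl

lemma mk_true : FreeGroup.mk [((0 : Fin 2), true)] = xa := rfl

lemma mk_false : FreeGroup.mk [((0 : Fin 2), false)] = xa⁻¹ := rfl

lemma mk_aw (i : ℤ) : FreeGroup.mk (aw i) = xa ^ i := by
  unfold aw
  rw [mk_replicate]
  rcases lt_or_ge i 0 with h | h
  · rw [decide_eq_false (by omega), mk_false, inv_pow, ← zpow_natCast, ← zpow_neg]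
    congr 1
    omega
  · rw [decide_eq_true h, mk_true, ← zpow_natCast]
    congr 1
    omega

lemma aw_reduced (i : ℤ) : FreeGroup.IsReduced (aw i) :=
  List.isChain_replicate_of_rel _ (fun _ => rfl)

lemma aw_length (i : ℤ) : (aw i).length = i.natAbs := List.length_replicate

lemma norm_zpow (i : ℤ) : FreeGroup.norm (xa ^ i) = i.natAbs := by
  rw [← mk_aw, norm_mk (aw_reduced i), aw_length]

lemma sandwich {L : List (Fin 2 × Bool)} (hL : FreeGroup.IsReduced L) (hne : L ≠ [])
    (h1 : ∀ x ∈ L.head?, x.1 ≠ 0) (h2 : ∀ x ∈ L.getLast?, x.1 ≠ 0) (i k : ℤ) :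
    FreeGroup.norm (xa ^ i * FreeGroup.mk L * xa ^ k) = i.natAbs + L.length + k.natAbs := by
  have e : xa ^ i * FreeGroup.mk L * xa ^ k = FreeGroup.mk (aw i ++ L ++ aw k) := by
    rw [← mk_aw, ← mk_aw, FreeGroup.mul_mk, FreeGroup.mul_mk]
  have hr : FreeGroup.IsReduced (aw i ++ L ++ aw k) := by
    refine List.isChain_append.2 ⟨List.isChain_append.2 ⟨aw_reduced i, hL, ?_⟩, aw_reduced k, ?_⟩
    · intro x hx y hy hxy
      have h3 : x ∈ aw i := List.mem_of_getLast? hx
      have h4 := List.eq_of_mem_replicate h3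
      exact absurd (by rw [← hxy, h4]) (h1 y hy)
    · intro x hx y hy hxy
      have h3 : y ∈ aw k := List.mem_of_head? hy
      have h4 := List.eq_of_mem_replicate h3
      rw [List.getLast?_append_of_ne_nil _ hne] at hx
      exact absurd (by rw [hxy, h4]) (h2 x hx)
  rw [e, norm_mk hr, List.length_append, List.length_append, aw_length, aw_length]

lemma mk_single (c : Bool) :
    FreeGroup.mk [((0 : Fin 2), c)] = xa ^ (if c then (1 : ℤ) else -1) := by
  cases c
  · rw [mk_false]; simp
  · rw [mk_true]; simp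

lemma struct (n : ℕ) : ∀ u : F2, FreeGroup.norm u ≤ n → u ∉ Subgroup.zpowers xa →
    ∃ (p q : ℤ) (m : ℕ), ∀ i k : ℤ, FreeGroup.norm (xa ^ i * u * xa ^ k) =
      (i + p).natAbs + m + (k + q).natAbs := by
  induction n with
  | zero =>
    intro u hu hz
    have : u = 1 := FreeGroup.norm_eq_zero.1 (by omega)
    exact absurd (this ▸ Subgroup.one_mem _) hz
  | succ n ih =>
    intro u hu hz
    obtain ⟨L, hLdef⟩ : ∃ L, L = u.toWord := ⟨_, rfl⟩
    have hr : FreeGroup.IsReduced L := hLdef ▸ FreeGroup.isReduced_toWord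
    have hmk : u = FreeGroup.mk L := by rw [hLdef, FreeGroup.mk_toWord]
    have hlen : L.length ≤ n + 1 := by rw [hLdef]; exact hu
    have hne : L ≠ [] := by
      intro h
      rw [h] at hmk
      exact hz (hmk ▸ Subgroup.one_mem _)
    by_cases h1 : ∀ x ∈ L.head?, x.1 ≠ 0
    · by_cases h2 : ∀ x ∈ L.getLast?, x.1 ≠ 0
      · refine ⟨0, 0, L.length, fun i k => ?_⟩
        rw [hmk, sandwich hr hne h1 h2, add_zero, add_zero]
      · push Not at h2
        obtain ⟨⟨x, c⟩, hx, hx0⟩ := h2
        simp only at hx0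
        subst hx0
        obtain ⟨L', hL'⟩ : ∃ L', L = L' ++ [((0 : Fin 2), c)] :=
          ⟨L.dropLast, (List.dropLast_append_getLast? _ hx).symm⟩
        obtain ⟨t, ht⟩ : ∃ t : ℤ, t = if c then (1 : ℤ) else -1 := ⟨_, rfl⟩
        have hu' : u = FreeGroup.mk L' * xa ^ t := by
          rw [hmk, hL', ← FreeGroup.mul_mk, mk_single, ht]
        have hz' : FreeGroup.mk L' ∉ Subgroup.zpowers xa := by
          intro h
          apply hz
          rw [hu']
          exact Subgroup.mul_mem _ h (Subgroup.zpow_mem _ (Subgroup.mem_zpowers _) _)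
        have hn' : FreeGroup.norm (FreeGroup.mk L') ≤ n := by
          refine FreeGroup.norm_mk_le.trans ?_
          rw [hL', List.length_append] at hlen
          simpa using hlen
        obtain ⟨p, q, m, h⟩ := ih _ hn' hz'
        refine ⟨p, t + q, m, fun i k => ?_⟩
        have e : xa ^ i * u * xa ^ k = xa ^ i * FreeGroup.mk L' * xa ^ (t + k) := by
          rw [hu', zpow_add]
          group
        rw [e, h]
        congr 2
        ring
    · push Not at h1
      obtain ⟨⟨x, c⟩, hx, hx0⟩ := h1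
      simp only at hx0
      subst hx0
      obtain ⟨L', hL'⟩ : ∃ L', L = ((0 : Fin 2), c) :: L' := by
        cases L with
        | nil => exact absurd rfl hne
        | cons y L' =>
          have : y = (0, c) := by simpa using hx
          exact ⟨L', by rw [this]⟩
      obtain ⟨t, ht⟩ : ∃ t : ℤ, t = if c then (1 : ℤ) else -1 := ⟨_, rfl⟩
      have hu' : u = xa ^ t * FreeGroup.mk L' := by
        rw [hmk, hL', ht, ← mk_single, FreeGroup.mul_mk]
        rfl
      have hz' : FreeGroup.mk L' ∉ Subgroup.zpowers xa := by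
        intro h
        apply hz
        rw [hu']
        exact Subgroup.mul_mem _ (Subgroup.zpow_mem _ (Subgroup.mem_zpowers _) _) h
      have hn' : FreeGroup.norm (FreeGroup.mk L') ≤ n := by
        refine FreeGroup.norm_mk_le.trans ?_
        rw [hL'] at hlen
        simpa using hlen
      obtain ⟨p, q, m, h⟩ := ih _ hn' hz'
      refine ⟨t + p, q, m, fun i k => ?_⟩
      have e : xa ^ i * u * xa ^ k = xa ^ (i + t) * FreeGroup.mk L' * xa ^ k := by
        rw [hu', zpow_add]
        group
      rw [e, h, add_assoc i t p]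

/-- the exponent sum of the second generator -/
noncomputable def fb : F2 →* Multiplicative ℤ :=
  FreeGroup.lift (fun i => if i = 1 then Multiplicative.ofAdd (1 : ℤ) else 1)

lemma fb_a : fb xa = 1 := by
  unfold fb
  simp [xa]

lemma fb_b : fb xb = Multiplicative.ofAdd (1 : ℤ) := by
  unfold fb
  simp [xb]

lemma fb_az (k : ℤ) : fb (xa ^ k) = 1 := by rw [map_zpow, fb_a, one_zpow]

lemma fb_bz (k : ℤ) : fb (xb ^ k) = Multiplicative.ofAdd k := by
  rw [map_zpow, fb_b, ← ofAdd_zsmul]
  simp

lemma fb_blk (p : F2) (hp : fb p = 1) (n : ℕ) :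
    fb (blk (xb ^ 2) p n) = Multiplicative.ofAdd (2 * (n : ℤ)) := by
  induction n with
  | zero => simp [blk]
  | succ n ih =>
    have e : xb ^ 2 = xb ^ (2 : ℤ) := by norm_cast
    rw [blk, map_mul fb, ih, map_mul fb, map_pow fb, hp, one_pow, one_mul, e, fb_bz, ← ofAdd_add]
    congr 1

theorem base : S_base := by
  refine ⟨WF, ⟨?_, le_rfl, le_rfl, ?_, ?_, FreeGroup.norm_of 1, ?_, ?_, ?_⟩, ?_⟩
  · intro x y z w
    have := hyp0 x y z w
    linarith
  · intro g hg
    have h1 : g.toWord.length = 1 := hg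
    obtain ⟨⟨i, c⟩, h2⟩ := List.length_eq_one_iff.1 h1
    have h3 : g = FreeGroup.mk [(i, c)] := by rw [← h2, FreeGroup.mk_toWord]
    fin_cases i <;> cases c
    · right; left; rw [h3]; rfl
    · left; rw [h3]; rfl
    · right; right; right; rw [h3]; rfl
    · right; right; left; rw [h3]; rfl
  · intro k
    rw [WF_ell, norm_zpow, Int.natCast_natAbs]
  · intro g n hn h
    have h1 : IsOfFinOrder g := isOfFinOrder_iff_pow_eq_one.2 ⟨n, hn, h⟩
    exact h1.eq_one'
  · intro u hu p hp q hq
    obtain ⟨k, rfl⟩ := hp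
    obtain ⟨l, rfl⟩ := hq
    obtain ⟨P, Q, m, h⟩ := struct _ u le_rfl hu
    have hd : ∀ i j : ℤ, dist (pt WF (u * xa ^ j)) (pt WF (1 * xa ^ i)) =
        (((-i + P).natAbs + m + (j + Q).natAbs : ℕ) : ℝ) := by
      intro i j
      rw [dist_comm, dist_def, WF_ell, ← h (-i) j, out_pt, out_pt]
      congr 2
      group
    have hne : (Ln WF xa 1).Nonempty := ⟨pt WF (1 * xa ^ (0 : ℤ)), 0, rfl⟩
    refine (pd_le hne (r := 0) ?_).trans zero_le_one
    rintro _ ⟨i, rfl⟩ _ ⟨j, rfl⟩
    rw [hd, hd, hd, hd]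
    push_cast
    linarith
  · intro i j k l _ _ hij h
    have h1 := congrArg fb h
    rw [fb_bz, map_mul, map_mul, fb_az, fb_az, fb_bz, one_mul, mul_one] at h1
    exact hij (Multiplicative.ofAdd.injective h1)
  · intro B i j k h
    have h1 := congrArg fb h
    have e3 : xb ^ 3 = xb ^ (3 : ℤ) := by norm_cast
    rw [Sd, map_mul, map_mul, map_mul, map_mul, fb_az, fb_az, fb_blk _ (fb_az k), e3, fb_bz,
      one_mul, mul_one, map_one, ← ofAdd_add, ← ofAdd_add, ← ofAdd_zero] at h1
    have h2 := Multiplicative.ofAdd.injective h1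
    omega

end Pool.Agent.H384.QF.S1
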