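import Pool.Agent.H343.QF.StG

set_option autoImplicit false
set_option linter.unusedSectionVars false

/-! Part G12 of project QF : projections of the path on a line. -/

namespace Pool.Agent.H384.QF.G12

open Pool.Agent.TH68 Pool.Agent.Helper97.Hyp Pool.Agent.H343.AN Pool.Agent.H343.QF

variable {Γ : Type} [Group Γ] {W : WNorm Γ}

private lemma ln_nonempty (a v : Γ) : (Ln W a v).Nonempty := ⟨pt W (v * a ^ (0 : ℤ)), 0, rfl⟩

private lemma ln_eq {a u v : Γ} (h : v⁻¹ * u ∈ Subgroup.zpowers a) : Ln W a v = Ln W a u := by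
  obtain ⟨k, hk⟩ := Subgroup.mem_zpowers_iff.mp h
  have hu : u = v * a ^ k := by rw [hk]; group
  ext x
  constructor
  · rintro ⟨i, rfl⟩
    exact ⟨i - k, by rw [hu, mul_assoc, ← zpow_add]; congr 3; ring⟩
  · rintro ⟨i, rfl⟩
    exact ⟨k + i, by rw [hu, mul_assoc, ← zpow_add]⟩

private lemma step_dist {a b : Γ} {δ D R : ℝ} {X : ℤ → Γ} {lam : ℤ → ℕ} {s : ℤ → Γ} {E Λ : ℕ}
    (h : Hyp5 W a b δ D R X lam s E Λ) (j : ℤ) :
    dist (pt W (X j)) (pt W (X (j + 1))) ≤ Λ + R := by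
  rw [dist_def, out_pt, out_pt, h.cor.step j]
  have e : (X j)⁻¹ * (X j * a ^ lam j * s j) = a ^ lam j * s j := by group
  rw [e]
  have h1 := W.mul_le (a ^ lam j) (s j)
  have h2 := h.good.pow (lam j)
  have h3 := h.cor.hi j
  have h4 := h.cor.short j
  have h5 : W.ℓ (a ^ lam j) = lam j := by
    rw [zpow_natCast] at h2
    simpa using h2
  have h6 : (W.ℓ (a ^ lam j * s j) : ℝ) ≤ (W.ℓ (a ^ lam j) : ℝ) + (W.ℓ (s j) : ℝ) := by
    exact_mod_cast h1
  have h7 : (W.ℓ (a ^ lam j) : ℝ) ≤ Λ := by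
    rw [h5]; exact_mod_cast h3
  linarith

theorem ma : S_m1 → S_m2 → S_ma := by
  intro hm1 hm2 Γ _ W a b δ D R X lam s E Λ h v i k
  have hE := h.hE
  have hR := h.hR
  have hone := h.good.one
  have hle := h.good.le
  have hEΛ : (E : ℝ) ≤ Λ := by exact_mod_cast h.hΛ
  have key : ∀ i k : ℤ, i ≤ k → pd (Ln W a v) (pt W (X i)) (pt W (X k)) ≤ 2 * Λ := by
    intro i k hik
    by_cases hbig : (E : ℝ) / 2 ≤ pd (Ln W a v) (pt W (X i)) (pt W (X k))
    · obtain ⟨j, hij, hjk, hj⟩ := hm2 h v i k hik hbig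
      rw [ln_eq hj]
      obtain ⟨h1, h2, -⟩ := hm1 h
      have e1 := (h1 i j hij).1
      have e2 := (h2 j k hjk).1
      have hne : (Ln W a (X j)).Nonempty := ln_nonempty a (X j)
      have e3 := pd_tri hne (pt W (X i)) (pt W (X j)) (pt W (X k))
      have e4 := pd_tri hne (pt W (X j)) (pt W (X (j + 1))) (pt W (X k))
      have e5 := pd_le_dist hne (pt W (X j)) (pt W (X (j + 1)))
      have e6 := step_dist h j
      nlinarith
    · push Not at hbig
      linarith
  rcases le_total i k with hik | hik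
  · exact key i k hik
  · rw [pd_symm (ln_nonempty a v)]
    exact key k i hik

end Pool.Agent.H384.QF.G12
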